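import Pool.Agent.W_3f1825_r40.Main3

set_option autoImplicit false

/-!
# Simplicial volume and separated virtually polycyclic normal subgroups

Let `M` be a closed connected aspherical topological manifold of dimension `n ≥ 1`. Suppose that
some subgroup `H` of finite index of the fundamental group of `M` has a non-trivial virtually
polycyclic normal subgroup `P` such that every non-trivial element of `P` is outside of some
subgroup of finite index of `H` (`VirtPolySep`).

This holds, with `H` the whole group, if the fundamental group is residually finite and has a
non-trivial (equivalently, infinite, because it is torsion free) virtually polycyclic normal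
subgroup.

Then every real singular `n`-cycle of `M` is homologous to cycles of arbitrarily small `l1`-norm,
and the simplicial volume of `M` is `0`.
-/

namespace Pool.Agent.Results.MP_3f1825_gt.VirtPolycyclic

open Pool.Agent.W_3f1825_h40 Pool.Agent.W_3f1825_r40

theorem result {n : ℕ} (hn : 1 ≤ n) (M : Type) [TopologicalSpace M] [T2Space M]
    [CompactSpace M] [ConnectedSpace M] [ChartedSpace (EuclideanSpace ℝ (Fin n)) M]
    (hM : IsAspherical M) (x₀ : M) (h : VirtPolySep (FundamentalGroup M x₀)) :
    (∀ c : SChain ℝ M n, IsCycle ℝ c → ∀ ε : ℝ, 0 < ε →
      ∃ c' : SChain ℝ M n, IsCycle ℝ c' ∧ Homologous ℝ c c' ∧ l1 c' < ε) ∧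
    simplicialVolume n M = 0 :=
  main_sep hn M hM x₀ h

end Pool.Agent.Results.MP_3f1825_gt.VirtPolycyclic
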